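import Pool.Agent.H88.Djrb

set_option autoImplicit false

namespace Pool.Agent.Results.MP_d393fc_an.Conv

open Pool.Agent.H88.Djrb MeasureTheory Set Filter

theorem result (σ : ℤ) (hσ : σ = -1 ∨ σ = 1) (ω : ℝ → ℝ)
    (hpos : ∀ t, 0 ≤ t → 0 < ω t) (hanti : AntitoneOn ω (Ici 0)) (hcont : ContinuousOn ω (Ici 0))
    (hfin : ∀ k : ℕ, IntegrableOn (fun t => ω t * t ^ k) (Ioi 0))
    (hdiff : ∀ t, 0 < t → DifferentiableAt ℝ ω t)
    (hmono : AntitoneOn (fun t => t * deriv ω t / ω t) (Ioi 0))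
    (z : ℕ → ℂ) (hz : ∀ k, z k ≠ 0) (hsum : Summable fun k => LL ω ‖z k‖) :
    (∀ (w : ℂ) (j : ℕ), Summable fun k => term σ ω w (z j) (k + 1)) ∧
    ∃ P : ℂ → ℂ, (∀ K : Set ℂ, IsCompact K →
      TendstoUniformlyOn (fun n w => ∏ k ∈ Finset.range n, AA σ ω w (z k)) P atTop K) ∧
      ∀ w, w ∉ range z → P w ≠ 0 :=
  have h : Hyp ω := ⟨hpos, hanti, hcont, hfin⟩
  ⟨fun w j => h.summable_term hσ.symm (hz j) w, h.main hσ.symm hdiff hmono hz hsum⟩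

end Pool.Agent.Results.MP_d393fc_an.Conv
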